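import Pool.Agent.W5h63.WC.A5

/-!
# Small-time null control of the Navier-Stokes equations: power laws for the cost near a no-slip wall

Dimension three (and two). The theorem concerns an arbitrary classical trajectory in
`(0, T) × (Ω ∩ B(c, δ))`, driven by any control, near an uncontrolled no-slip wall. Let the component
`w = v_x - u_y` of the vorticity be `≥ a > 0` near `c` at time zero, and `|w| ≤ K`. If the trajectory
is at rest at time `T`, then the velocity near the wall (which is at most `l(t)` times the distance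
`d` to the wall, while the normal velocity is at most `m(t) d²` and the stretching term at most
`n(t) d`) has to be large: with `ρ = (32 T log (24 K / a))^(1/2)`, one of the integrals
`∫ l`, `∫ m`, `∫ n` over `[0, T]` is larger than `δ / (32 ρ)`, `1 / (64 ρ)`, `a / (16 ρ)`. For a flat
wall and bounds `G`, `H` for the first and second derivatives of the velocity this gives
`64 ρ T G > δ` or `128 ρ T G H > a` (with `K = 2 G`), and for plane flows `64 ρ T G > δ` or
`64 ρ T H > 1`.

Method: the component of the vorticity satisfies a transport-diffusion equation whose right hand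
side, the stretching term, is small near the wall; it is compared with an explicit subsolution in a
thin box along the wall, at distances between `r / 4` and `4 r`, which moves with the flow.
-/

set_option autoImplicit false

open Set

namespace Pool.Agent.Results.MP_79abb3_an.PowerLawCost

open Pool.Agent.W5h63.WC

/-- (1) the lower bound for the vorticity at time `T`; (2) the cost of a null control; (3) the cost
near a flat wall, for flows in space and for plane flows. -/
theorem result :
    (∀ {Ω : Set P} {c : P} {δ : ℝ} {d : P → ℝ}, IsWall Ω c δ d → ∀ {T : ℝ}, 0 < T →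
      ∀ {u s v p w : E → ℝ} {l m n L M N : ℝ → ℝ} {K a : ℝ},
      Action T L l → Action T M m → Action T N n → Traj Ω c δ d T u s v p w l m n K a →
      0 < a → a ≤ K →
      -- (1)
      (∀ r : ℝ, 0 < r → 8 * r ≤ δ → 32 * r * L T ≤ δ → 64 * r * M T ≤ 1 →
        ∀ z ∈ Reg Ω c δ, dsq z c ≤ δ ^ 2 / 4 → r ≤ d z → d z ≤ 2 * r →
          a - 4 * r * N T - 12 * K * Real.exp (-(r ^ 2 / (32 * T))) ≤ w (T, z)) ∧
      -- (2)
      (8 * rho T K a ≤ δ → ∀ z ∈ Reg Ω c δ, dsq z c ≤ δ ^ 2 / 4 → rho T K a ≤ d z →
        d z ≤ 2 * rho T K a → w (T, z) ≤ 0 →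
        δ < 32 * rho T K a * L T ∨ 1 < 64 * rho T K a * M T ∨ a < 16 * rho T K a * N T)) ∧
    -- (3)
    ∀ {c : P} {δ T : ℝ}, 0 < δ → 0 < T → ∀ {u s v p w : E → ℝ} {G H a : ℝ},
      FlatTraj c δ T u s v p w G H a → 0 < a → a ≤ 2 * G → 8 * rho T (2 * G) a ≤ δ →
      (∀ z ∈ Reg (Half c) c δ, w (T, z) ≤ 0) →
      (δ < 64 * rho T (2 * G) a * G * T ∨ a < 128 * rho T (2 * G) a * G * H * T) ∧
      ((∀ z ∈ Ioo 0 T ×ˢ Reg (Half c) c δ, s z = 0 ∧ pd es u z = 0 ∧ pd es v z = 0) →
        δ < 64 * rho T (2 * G) a * G * T ∨ 1 < 64 * rho T (2 * G) a * H * T) := by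
  refine ⟨?_, ?_⟩
  · intro Ω c δ d hd T hT u s v p w l m n L M N K a hL hM hN h ha haK
    refine ⟨fun r hr h1 h2 h3 z hz h4 h5 h6 => ?_, fun h1 z hz h2 h3 h4 h5 => ?_⟩
    · exact lower hd hT hL hM hN h ha haK hr h1 h2 h3 hz h4 h5 h6
    · exact cost hd hT hL hM hN h ha haK h1 hz h2 h3 h4 h5
  · intro c δ T hδ hT u s v p w G H a h ha haG hρ hw
    exact flat_cost hδ hT h ha haG hρ hw

end Pool.Agent.Results.MP_79abb3_an.PowerLawCost
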