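import Pool.Agent.W5h62.FW.Final

/-!
# Null controls of the Navier-Stokes equations at a no-slip wall: rigidity at the final time

All dimensions. A trajectory is a classical solution in `(0, T) × Ω`, driven by any control on the
rest of the boundary, smooth up to the time `T` and up to one piece of the no-slip wall. Near the
final time the control has no effect to any finite order: two trajectories which are equal at the
time `T` have there the same time derivatives of all orders, in the whole connected open set `Ω`.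
Hence explicit bounds (Bang's theorem on quasi-analytic functions) for the distance of the
trajectories at the earlier times: for null controls, lower bounds for the control time and for the
cost in terms of the time derivatives; in the quasi-analytic classes (as the functions analytic in
time) no trajectory is controllable at all. Trajectories with values in a finite-dimensional space of
velocity fields are not controllable either, and here no smoothness up to the time `T` is needed.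

Method: by the equations the first time derivative in which the two trajectories could differ is a
solenoidal gradient field which vanishes on the wall; such a field is zero by unique continuation
(in dimension two a maximum principle for the product of four rotated copies of a holomorphic
function, which allows walls with corners; in dimension `d` the extension by zero across the wall is
smooth and harmonic, and harmonic functions are quasi-analytic by the interior gradient estimate).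
-/

open Set Filter Topology Pool.Agent.W5h62

namespace Pool.Agent.Results.MP_79abb3_an.RestRigidity

/-- (1) Any dimension `d`: let `u1`, `u2` be trajectories in `(0, T) × Ω` (`FN.Traj`), smooth up to
the time `T` and up to the piece `{ψ = 0} ∩ U` of the wall, and equal at the time `T` in `Ω`. Then all
their time derivatives are equal at the time `T` in `Ω`, and the bounds `FN.Bounds` hold for every
component, point of `Ω` and time `0 < s < T` (also for `s = 0` in case of continuity).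
(2) Any dimension: let `u1 = Σ a_k(t) W_k`, `u2 = Σ b_k(t) W_k` be classical solutions in
`(0, T) × Ω`, `W_1, …, W_N` linearly independent solenoidal fields, smooth up to the piece of the
wall and zero there (`FN.Fam`), the coefficients continuous in `(0, T]` and `a_k(T) = b_k(T)`. Then
`a_k = b_k` in `(0, T]`.
(3) Dimension two: as (1), for walls with an exterior cone of aperture more than a right angle at one
boundary point (`FW.Cone`), the time derivatives being only continuous up to the wall (`FW.Traj`).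
(4) The flow at rest is a trajectory; so (1), (2), (3) apply to null controls (`u2 = 0`). -/
theorem result :
    (∀ {d : ℕ} {T : ℝ} {Ω U : Set (Fin d → ℝ)} {ψ : (Fin d → ℝ) → ℝ}, IsOpen Ω →
      IsPreconnected Ω → FN.SmoothWall Ω U ψ → (∃ w ∈ U, ψ w = 0) → 0 < T →
      ∀ {u1 u2 : Fin d → ℝ × (Fin d → ℝ) → ℝ} {p1 p2 : ℝ × (Fin d → ℝ) → ℝ},
      FN.Traj Ω U ψ T u1 p1 → FN.Traj Ω U ψ T u2 p2 → (∀ i, ∀ z ∈ Ω, u1 i (T, z) = u2 i (T, z)) →
      ∀ i, ∀ z ∈ Ω, (∀ n, FN.dt n (u1 i) T z = FN.dt n (u2 i) T z) ∧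
        (∀ s ∈ Ioo 0 T, FN.Bounds T (u1 i) (u2 i) z s) ∧
        (ContinuousWithinAt (fun t => u1 i (t, z)) (Ioi 0) 0 →
          ContinuousWithinAt (fun t => u2 i (t, z)) (Ioi 0) 0 →
            FN.Bounds T (u1 i) (u2 i) z 0)) ∧
    (∀ {d N : ℕ} {T : ℝ} {Ω U : Set (Fin d → ℝ)} {ψ : (Fin d → ℝ) → ℝ}, IsOpen Ω →
      IsPreconnected Ω → FN.SmoothWall Ω U ψ → (∃ w ∈ U, ψ w = 0) → 0 < T →
      ∀ {W : Fin N → Fin d → (Fin d → ℝ) → ℝ}, FN.Fam Ω U ψ W →
      ∀ {u1 u2 : Fin d → ℝ × (Fin d → ℝ) → ℝ} {p1 p2 : ℝ × (Fin d → ℝ) → ℝ},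
      FN.IsNS (Ioo 0 T ×ˢ Ω) u1 p1 → FN.IsNS (Ioo 0 T ×ˢ Ω) u2 p2 →
      ∀ {a b : Fin N → ℝ → ℝ}, (∀ k, DifferentiableOn ℝ (a k) (Ioo 0 T)) →
      (∀ k, DifferentiableOn ℝ (b k) (Ioo 0 T)) → (∀ k, ContinuousOn (a k) (Ioc 0 T)) →
      (∀ k, ContinuousOn (b k) (Ioc 0 T)) → (∀ k, a k T = b k T) →
      (∀ i, ∀ t ∈ Ioo 0 T, ∀ x ∈ Ω, u1 i (t, x) = ∑ k, a k t * W k i x) →
      (∀ i, ∀ t ∈ Ioo 0 T, ∀ x ∈ Ω, u2 i (t, x) = ∑ k, b k t * W k i x) →
      ∀ t ∈ Ioc 0 T, ∀ k, a k t = b k t) ∧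
    (∀ {T : ℝ} {Ω : Set (ℝ × ℝ)}, IsOpen Ω → IsPreconnected Ω → ∀ {q m : ℝ × ℝ} {r κ : ℝ},
      FW.Cone Ω q m r κ → 0 < T → ∀ {u₁ v₁ p₁ u₂ v₂ p₂ : ℝ × ℝ × ℝ → ℝ},
      FW.Traj Ω (FW.Wall Ω q r) T u₁ v₁ p₁ → FW.Traj Ω (FW.Wall Ω q r) T u₂ v₂ p₂ →
      (∀ z ∈ Ω, u₁ (T, z) = u₂ (T, z)) → (∀ z ∈ Ω, v₁ (T, z) = v₂ (T, z)) →
      ∀ {f₁ f₂ : ℝ × ℝ × ℝ → ℝ}, (f₁ = u₁ ∧ f₂ = u₂) ∨ (f₁ = v₁ ∧ f₂ = v₂) → ∀ z ∈ Ω,
        (∀ n, FW.dt n f₁ T z = FW.dt n f₂ T z) ∧
        (∀ s ∈ Ioo 0 T, FW.Bounds T f₁ f₂ z s) ∧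
        (ContinuousWithinAt (fun t => f₁ (t, z)) (Ioi 0) 0 →
          ContinuousWithinAt (fun t => f₂ (t, z)) (Ioi 0) 0 → FW.Bounds T f₁ f₂ z 0)) ∧
    (∀ {d : ℕ} (Ω U : Set (Fin d → ℝ)) (ψ : (Fin d → ℝ) → ℝ) (T : ℝ),
      FN.Traj Ω U ψ T (fun _ _ => 0) (fun _ => 0)) ∧
    (∀ (Ω Γ : Set (ℝ × ℝ)) (T : ℝ), FW.Traj Ω Γ T (fun _ => 0) (fun _ => 0) (fun _ => 0)) :=
  ⟨fun hΩ hc hS ⟨_, hw, hw0⟩ hT _ _ _ _ h1 h2 hu i _ hz =>
      partN hΩ hc hS hw hw0 hT h1 h2 hu i hz,
    fun hΩ hc hS ⟨_, hw, hw0⟩ hT _ hW _ _ _ _ n1 n2 _ _ ha hb hac hbc hab hu1 hu2 =>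
      FN.famN hΩ hc hS hw hw0 hT hW n1 n2 ha hb hac hbc hab hu1 hu2,
    fun hΩ hc _ _ _ _ hcone hT _ _ _ _ _ _ h1 h2 hu hv _ _ hf _ hz =>
      partP hΩ hc hcone hT h1 h2 hu hv hf hz,
    fun Ω U ψ T => FN.traj_zero Ω U ψ T,
    fun Ω Γ T => FW.traj_zero Ω Γ T⟩

end Pool.Agent.Results.MP_79abb3_an.RestRigidity
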