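import Pool.Agent.W5h42.KF.Bounded

/-! MP_79abb3_an: a null control trajectory has to transport the vorticity away from a no-slip wall;
lower bounds, in the mean over a layer of width `h` next to the wall `y = h Γ (x / δ)`, for the
velocity (above all for its component in the direction `y`) and for the derivative of the velocity,
in all dimensions (space is `ℝ^n × ℝ`, so `n = 1, 2` are the dimensions 2 and 3 of the problem).
The definitions are in `Pool/Agent/W5h42/KF/Defs.lean` and `RotDefs.lean`. -/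

set_option autoImplicit false

open MeasureTheory Set

namespace Pool.Agent.Results.MP_79abb3_an.VorticityTransport

open Pool.Agent.W5h42.KF

/-- There is `c > 0` (depending only on `n` and `m`) such that, with `X = T / h²`:
(1) for every weak trajectory on `[0, T]` with final value zero and with integrable `W` and `W u`,
`W` the rotation tensor, from an initial value with a component of the vorticity at least `a` in the
layer, `c a h δⁿ` is at most the integral over the time and the outer half of the layer of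
`(1 + X)^m ((|W| |u_y| + k |u|) / h + |W| |u| / δ) + X^m |W| / h²`.
(2) If `|W| ≤ K` in the outer half of the layer,
`c a h δⁿ ≤ K ((1 + X)^m ∫ |∂_y u| + X^m T δⁿ / h)`, and if moreover `k = 0` (planar flows),
`c a h δⁿ ≤ K ((1 + X)^m (∫ |∂_y u_y| + (h / δ) ∫ |∂_y u|) + X^m T δⁿ / h)`, with the integrals over
the time and the whole layer. -/
theorem result (n m : ℕ) :
    (∃ c : ℝ, 0 < c ∧ ∀ (i : Fin n) {Γ : (Fin n → ℝ) → ℝ} {δ h T a : ℝ},
      Profile m Γ → 0 < T → 0 < h → h ≤ δ → 0 < a → ∀ {u : ST n → Z n}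
      {W : ST n → Z n →L[ℝ] Z n} {k : ST n → ℝ} {u0 : Z n → Z n},
      LambTraj n (wall Γ δ h) δ h T u W k u0 0 → VortGE (wall Γ δ h) δ h i a u0 →
      c * (a * h * δ ^ n) ≤ (1 + T / h ^ 2) ^ m * transport n δ h T u W k +
        (T / h ^ 2) ^ m * viscous n δ h T W) ∧
    ∃ c : ℝ, 0 < c ∧ ∀ (i : Fin n) {Γ : (Fin n → ℝ) → ℝ} {δ h T a K : ℝ},
      Profile m Γ → 0 < T → 0 < h → h ≤ δ → 0 < a → 0 ≤ K →
      ∀ {u g : ST n → Z n} {W : ST n → Z n →L[ℝ] Z n} {k : ST n → ℝ} {u0 : Z n → Z n},
      WeakTraj n (wall Γ δ h) δ h T u g u0 0 → LambTraj n (wall Γ δ h) δ h T u W k u0 0 →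
      VortGE (wall Γ δ h) δ h i a u0 →
      (∀ᵐ p : ST n, p ∈ dom n T δ (h / 2) h → ‖W p‖ ≤ K) →
      c * (a * h * δ ^ n) ≤ K * ((1 + T / h ^ 2) ^ m * total n δ h T g +
        (T / h ^ 2) ^ m * (T * δ ^ n / h)) ∧
      (k = 0 → c * (a * h * δ ^ n) ≤ K * ((1 + T / h ^ 2) ^ m *
        (totalY n δ h T g + h / δ * total n δ h T g) +
          (T / h ^ 2) ^ m * (T * δ ^ n / h))) := by
  refine ⟨vort n m, ?_⟩
  obtain ⟨c1, hc1, h1⟩ := bounded n m
  obtain ⟨c2, hc2, h2⟩ := planar n m
  refine ⟨min c1 c2, by positivity, ?_⟩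
  intro i Γ δ h T a K hΓ hT hh hhδ ha hK u g W k u0 H L hv hb
  have hδ : 0 < δ := hh.trans_le hhδ
  have m1 : min c1 c2 ≤ c1 := min_le_left _ _
  have m2 : min c1 c2 ≤ c2 := min_le_right _ _
  refine ⟨le_trans ?_ (h1 i hΓ hT hh hhδ ha hK H L hv hb), ?_⟩
  · gcongr
  · intro hk
    subst hk
    refine le_trans ?_ (h2 i hΓ hT hh hhδ ha hK H L hv hb)
    gcongr

end Pool.Agent.Results.MP_79abb3_an.VorticityTransport
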