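import Pool.Agent.W5h42.KF.Main
import Pool.Agent.W5h42.KF.Quant

/-! MP_79abb3_an: for every weak null control trajectory, however controlled, lower bounds for the
dissipation due to the derivative in the direction `y` in a layer of width `h` next to a no-slip wall
`y = h Γ (x / δ)`, in all dimensions (space is `ℝ^n × ℝ`, so `n = 1, 2` are the dimensions 2 and 3 of
the problem). Near each point of its boundary, a smooth domain is of this form in suitable Cartesian
coordinates, for `h = δ` small, or for `h` small and `δ` of the order of `h^(1/2)`.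
The definitions are in `Pool/Agent/W5h42/KF/Defs.lean` and `Quant.lean`. -/

set_option autoImplicit false

open MeasureTheory Set

namespace Pool.Agent.Results.MP_79abb3_an.WeakDissipation

open Pool.Agent.W5h42.KF

/-- There is `c > 0` (depending only on `n` and `m`) such that for every weak trajectory on `[0, T]`
with final value zero, from an initial value with a component of the vorticity at least `a` in the
layer `|x_i| < δ`, `0 < y - h Γ (x / δ) < h`, where `h ≤ δ`, and with `X = T / h²`: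
(1) the integrals `I` and `J` of `|u|²` and `u_y²` over the outer half of the layer (and the time)
satisfy `c a h δⁿ ≤ (1 + X)^m (√(I J) / h² + I / (h δ)) + X^m √(T h δⁿ I) / h³`;
(2) the integrals `D` and `E` of `|∂_y u|²` and `(∂_y u_y)²` over the layer satisfy
`c a h δⁿ ≤ (1 + X)^m (√(D E) + (h / δ) D) + X^m √(T δⁿ D / h³)`;
(3) `c a² h⁵ δⁿ ≤ (a h⁴ + T X^(2m)) D` if `T ≤ h²` or `m = 0`.
(4) For an arbitrary wall, if the initial value is not orthogonal to all the solenoidal test fields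
in the layer, then `D` has a positive lower bound common to all `T` in `(0, 1]` and all the
trajectories with final value zero. -/
theorem result (n m : ℕ) :
    (∃ c : ℝ, 0 < c ∧ ∀ (i : Fin n) {Γ : (Fin n → ℝ) → ℝ} {δ h T a : ℝ},
      Profile m Γ → 0 < T → 0 < h → h ≤ δ → 0 < a → ∀ {u g : ST n → Z n} {u0 : Z n → Z n},
      WeakTraj n (wall Γ δ h) δ h T u g u0 0 → VortGE (wall Γ δ h) δ h i a u0 →
      (c * (a * h * δ ^ n) ≤ (1 + T / h ^ 2) ^ m *
        (h⁻¹ ^ 2 * Real.sqrt (sqInt n T δ (h / 2) h u * sqIntY n T δ (h / 2) h u) +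
        (h * δ)⁻¹ * sqInt n T δ (h / 2) h u) +
        (T / h ^ 2) ^ m * (h⁻¹ ^ 3 * Real.sqrt (T * h * δ ^ n * sqInt n T δ (h / 2) h u))) ∧
      (c * (a * h * δ ^ n) ≤ (1 + T / h ^ 2) ^ m *
        (Real.sqrt (sqInt n T δ 0 h g * sqIntY n T δ 0 h g) + h / δ * sqInt n T δ 0 h g) +
        (T / h ^ 2) ^ m * Real.sqrt (T * δ ^ n / h ^ 3 * sqInt n T δ 0 h g)) ∧
      ((T ≤ h ^ 2 ∨ m = 0) → c * (a ^ 2 * h ^ 5 * δ ^ n) ≤
        (a * h ^ 4 + T * (T / h ^ 2) ^ (2 * m)) * sqInt n T δ 0 h g)) ∧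
    ∀ {γ : (Fin n → ℝ) → ℝ} {δ h : ℝ}, 0 < δ → 0 < h → ∀ {u0 φ : Z n → Z n},
      IsTest (box γ δ 0 h) φ → (∀ z, div φ z = 0) →
      ∫ z in layer n δ 0 h, dot (u0 z) (φ (lift γ z)) ≠ 0 →
      ∃ c : ℝ, 0 < c ∧ ∀ T : ℝ, 0 < T → T ≤ 1 → ∀ u g : ST n → Z n,
        WeakTraj n γ δ h T u g u0 0 → c ≤ sqInt n T δ 0 h g := by
  refine ⟨?_, fun hδ hh _ _ hφ hdiv h0 => qual hδ hh hφ hdiv h0⟩
  obtain ⟨c1, hc1, h1⟩ := strip n m
  obtain ⟨c2, hc2, h2⟩ := product n m
  obtain ⟨c3, hc3, h3⟩ := dissip n m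
  refine ⟨min c1 (min c2 c3), by positivity, ?_⟩
  intro i Γ δ h T a hΓ hT hh hhδ ha u g u0 H hv
  have hδ : 0 < δ := hh.trans_le hhδ
  have m1 : min c1 (min c2 c3) ≤ c1 := min_le_left _ _
  have m2 : min c1 (min c2 c3) ≤ c2 := (min_le_right _ _).trans (min_le_left _ _)
  have m3 : min c1 (min c2 c3) ≤ c3 := (min_le_right _ _).trans (min_le_right _ _)
  refine ⟨le_trans ?_ (h1 i hΓ hT hh hhδ ha H hv), le_trans ?_ (h2 i hΓ hT hh hhδ ha H hv),
    fun hTh => le_trans ?_ (h3 i hΓ hT hh hhδ hTh ha H hv)⟩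
  · gcongr
  · gcongr
  · gcongr

end Pool.Agent.Results.MP_79abb3_an.WeakDissipation
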